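import Pool.Agent.W648.UN.Stm2

set_option autoImplicit false

open MeasureTheory Set Filter Topology
open scoped ContDiff

noncomputable section

namespace Pool.Agent.W230.UN.GF

open Pool.Agent.W648.UN

abbrev E2 := Fin 2 → ℝ

theorem tot {g : E2 → ℝ → ℝ} {x y : E2} {θ : ℝ}
    (hg : ContDiffAt ℝ ∞ (fun z : E2 × ℝ => g z.1 z.2) (x, θ)) {a : E2} {t : ℝ}
    (h1 : ∀ j, fderiv ℝ (fun z => g z θ) x (Pi.single j (1 : ℝ) : E2) = a j)
    (h2 : HasDerivAt (fun θ => g x θ) t θ) {Θ : E2 × E2 → ℝ} {LΘ : E2 × E2 →L[ℝ] ℝ}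
    (hΘ : HasFDerivAt Θ LΘ (x, y)) (hΘ0 : Θ (x, y) = θ) :
    ∃ L : E2 × E2 →L[ℝ] ℝ, HasFDerivAt (fun z => g z.1 (Θ z)) L (x, y) ∧
      ∀ v, L v = dot a v.1 + LΘ v * t := by
  have hD : DifferentiableAt ℝ (fun z : E2 × ℝ => g z.1 z.2) (x, θ) :=
    hg.differentiableAt (by simp)
  set D := fderiv ℝ (fun z : E2 × ℝ => g z.1 z.2) (x, θ) with hDdef
  have hDa : HasFDerivAt (fun z : E2 × ℝ => g z.1 z.2) D (x, θ) := hD.hasFDerivAt
  have hι : HasFDerivAt (fun z : E2 × E2 => (z.1, Θ z))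
      ((ContinuousLinearMap.fst ℝ E2 E2).prod LΘ) (x, y) :=
    (ContinuousLinearMap.fst ℝ E2 E2).hasFDerivAt.prodMk hΘ
  have hDa' : HasFDerivAt (fun z : E2 × ℝ => g z.1 z.2) D
      ((fun z : E2 × E2 => (z.1, Θ z)) (x, y)) := by
    simp only [hΘ0]
    exact hDa
  have hcomp := hDa'.comp (x, y) hι
  refine ⟨_, hcomp, fun v => ?_⟩
  have e1 : ∀ j, D (Pi.single j (1 : ℝ), 0) = a j := by
    intro j
    have h3 : HasFDerivAt (fun z : E2 => ((z, θ) : E2 × ℝ)) (ContinuousLinearMap.inl ℝ E2 ℝ) x :=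
      hasFDerivAt_prodMk_left x θ
    have h4 := HasFDerivAt.comp x (g := fun z : E2 × ℝ => g z.1 z.2) hDa h3
    have h5 := h4.fderiv
    have h6 := h1 j
    change fderiv ℝ ((fun z : E2 × ℝ => g z.1 z.2) ∘ fun z : E2 => ((z, θ) : E2 × ℝ)) x _ = _
      at h6
    rw [h5] at h6
    exact h6
  have e2 : D (0, 1) = t := by
    have h3 : HasFDerivAt (fun s : ℝ => ((x, s) : E2 × ℝ)) (ContinuousLinearMap.inr ℝ E2 ℝ) θ :=
      hasFDerivAt_prodMk_right x θ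
    have h4 := HasFDerivAt.comp θ (g := fun z : E2 × ℝ => g z.1 z.2) hDa h3
    have h5 := h4.hasDerivAt
    have h6 := h5.unique h2
    exact h6
  have e3 : v.1 = v.1 0 • (Pi.single 0 (1 : ℝ) : E2) + v.1 1 • (Pi.single 1 (1 : ℝ) : E2) := by
    funext i
    fin_cases i <;> simp
  have e4 : ((v.1, LΘ v) : E2 × ℝ) = v.1 0 • ((Pi.single 0 (1 : ℝ) : E2), (0 : ℝ)) +
      v.1 1 • ((Pi.single 1 (1 : ℝ) : E2), (0 : ℝ)) + LΘ v • ((0 : E2), (1 : ℝ)) := by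
    apply Prod.ext
    · simp only [Prod.fst_add, Prod.smul_fst, smul_zero, add_zero]
      exact e3
    · simp
  change D (v.1, LΘ v) = _
  rw [e4, map_add, map_add, map_smul, map_smul, map_smul, e1, e1, e2]
  unfold dot
  simp only [smul_eq_mul]
  ring

section main

variable {U : Set (Fin 2 → ℝ)} {T : ℝ} {p q : (Fin 2 → ℝ) → ℝ → Fin 2 → ℝ}
  {A B : (Fin 2 → ℝ) → ℝ → Fin 2 → Fin 2 → ℝ} {m1 m2 : (Fin 2 → ℝ) → ℝ → ℝ}

theorem per {α : Type} {f : ℝ → α} (h : ∀ θ, f (θ + T) = f θ) (k : ℤ) (θ : ℝ) :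
    f (θ + k * T) = f θ :=
  (Function.Periodic.int_mul (f := f) (c := T) h k) θ

theorem thet_spec {x y : E2} {θ : ℝ} (h : isT p q x y θ) : isT p q x y (thet p q x y) := by
  unfold thet
  have h' : ∃ θ, isT p q x y θ := ⟨θ, h⟩
  rw [dif_pos h']
  exact Classical.choose_spec h'

theorem thet_eq (G : GDat U T p q A B m1 m2) {x y : E2} (hx : x ∈ U) (hy : y ≠ 0) {θ : ℝ}
    (h : isT p q x y θ) : ∃ k : ℤ, thet p q x y = θ + k * T := by
  have h2 := thet_spec h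
  exact G.un x hx y hy θ _ h.1 h.2 h2.1 h2.2

theorem FF_eq (G : GDat U T p q A B m1 m2) {x y : E2} (hx : x ∈ U) (hy : y ≠ 0) {θ : ℝ}
    (h : isT p q x y θ) : FF p q x y = dot (p x θ) y := by
  obtain ⟨k, hk⟩ := thet_eq G hx hy h
  unfold FF
  rw [hk, per (f := p x) (G.pp x hx) k θ]

theorem GG_eq (G : GDat U T p q A B m1 m2) {x y : E2} (hx : x ∈ U) (hy : y ≠ 0) {θ : ℝ}
    (h : isT p q x y θ) : GG p q A B x y =
      sol2 (p x θ) (q x θ) ((1 / 2) * quad (A x θ) y) ((1 / 2) * quad (B x θ) y) := by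
  obtain ⟨k, hk⟩ := thet_eq G hx hy h
  unfold GG
  rw [hk, per (f := p x) (G.pp x hx) k θ, per (f := q x) (G.pq x hx) k θ,
    per (f := A x) (G.pA x hx) k θ, per (f := B x) (G.pB x hx) k θ]

theorem sAt {F : Type} [NormedAddCommGroup F] [NormedSpace ℝ F] (hU : IsOpen U)
    {f : E2 × ℝ → F} (h : ContDiffOn ℝ ∞ f (U ×ˢ univ)) {x : E2} (hx : x ∈ U) (θ : ℝ) :
    ContDiffAt ℝ ∞ f (x, θ) :=
  h.contDiffAt ((hU.prod isOpen_univ).mem_nhds ⟨hx, mem_univ _⟩)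

theorem ev_ne {x y : E2} (hy : y ≠ 0) : ∀ᶠ z : E2 × E2 in 𝓝 (x, y), z.2 ≠ 0 := by
  have h : IsOpen {z : E2 × E2 | z.2 ≠ 0} := isOpen_ne_fun continuous_snd continuous_const
  exact h.mem_nhds hy

theorem ev_U (hU : IsOpen U) {x y : E2} (hx : x ∈ U) : ∀ᶠ z : E2 × E2 in 𝓝 (x, y), z.1 ∈ U :=
  (hU.preimage continuous_fst).mem_nhds hx

/-- all the first order information -/
theorem first (hL : S_LOC) (G : GDat U T p q A B m1 m2) {x y : E2} (hx : x ∈ U) (hy : y ≠ 0)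
    {θ : ℝ} (h : isT p q x y θ) : ∃ Θ : E2 × E2 → ℝ, ContDiffAt ℝ ∞ Θ (x, y) ∧ Θ (x, y) = θ ∧
      (∀ᶠ z in 𝓝 (x, y), isT p q z.1 z.2 (Θ z)) ∧
      (∀ᶠ z in 𝓝 (x, y), FF p q z.1 z.2 = dot (p z.1 (Θ z)) z.2) ∧
      ∃ (LF : E2 × E2 →L[ℝ] ℝ) (LP : Fin 2 → E2 × E2 →L[ℝ] ℝ),
        HasFDerivAt (fun z : E2 × E2 => dot (p z.1 (Θ z)) z.2) LF (x, y) ∧
        (∀ i, HasFDerivAt (fun z : E2 × E2 => p z.1 (Θ z) i) (LP i) (x, y)) ∧
        (∀ v, LF v = dot v.1 ![dot (A x θ 0) y, dot (A x θ 1) y] + dot (p x θ) v.2) ∧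
        (∀ i v, dot (p x θ) y * LP i v = dot (p x θ) y * dot (A x θ i) v.1 +
          (dot v.1 ![dot (B x θ 0) y, dot (B x θ 1) y] + dot (q x θ) v.2) * q x θ i) := by
  obtain ⟨Θ, hΘ, hΘ0, hΘt⟩ := hL U T p q A B m1 m2 G x hx y hy θ h
  have hFF : ∀ᶠ z in 𝓝 (x, y), FF p q z.1 z.2 = dot (p z.1 (Θ z)) z.2 := by
    filter_upwards [hΘt, ev_ne hy, ev_U G.oU hx] with z hz1 hz2 hz3
    exact FF_eq G hz3 hz2 hz1
  refine ⟨Θ, hΘ, hΘ0, hΘt, hFF, ?_⟩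
  have hΘd : HasFDerivAt Θ (fderiv ℝ Θ (x, y)) (x, y) :=
    (hΘ.differentiableAt (by simp)).hasFDerivAt
  set LΘ := fderiv ℝ Θ (x, y) with hLΘ
  have hP : ∀ i, ∃ L : E2 × E2 →L[ℝ] ℝ, HasFDerivAt (fun z : E2 × E2 => p z.1 (Θ z) i) L (x, y) ∧
      ∀ v, L v = dot (A x θ i) v.1 + LΘ v * q x θ i := fun i =>
    tot (g := fun x θ => p x θ i) (contDiffAt_pi.1 (sAt G.oU G.sp hx θ) i)
      (fun j => G.dpx x hx θ i j) (G.dpt x hx θ i) hΘd hΘ0
  have hQ : ∀ i, ∃ L : E2 × E2 →L[ℝ] ℝ, HasFDerivAt (fun z : E2 × E2 => q z.1 (Θ z) i) L (x, y) ∧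
      ∀ v, L v = dot (B x θ i) v.1 + LΘ v * (- p x θ i - m1 x θ * q x θ i) := fun i =>
    tot (g := fun x θ => q x θ i) (contDiffAt_pi.1 (sAt G.oU G.sq hx θ) i)
      (fun j => G.dqx x hx θ i j) (G.dqt x hx θ i) hΘd hΘ0
  choose LP hLP hLPv using hP
  choose LQ hLQ hLQv using hQ
  have hY : ∀ i : Fin 2, HasFDerivAt (fun z : E2 × E2 => z.2 i)
      ((ContinuousLinearMap.proj (R := ℝ) (φ := fun _ : Fin 2 => ℝ) i).comp
        (ContinuousLinearMap.snd ℝ E2 E2)) (x, y) := fun i =>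
    ((ContinuousLinearMap.proj (R := ℝ) (φ := fun _ : Fin 2 => ℝ) i).comp
        (ContinuousLinearMap.snd ℝ E2 E2)).hasFDerivAt
  have hdF := ((hLP 0).mul (hY 0)).add ((hLP 1).mul (hY 1))
  have hdQ := ((hLQ 0).mul (hY 0)).add ((hLQ 1).mul (hY 1))
  have hq0 : dot (q x θ) y = 0 := h.1
  -- the constraint
  have hcon : ∀ v, dot (p x θ) y * LΘ v =
      dot v.1 ![dot (B x θ 0) y, dot (B x θ 1) y] + dot (q x θ) v.2 := by
    intro v
    have hz : (fun z : E2 × E2 => q z.1 (Θ z) 0 * z.2 0 + q z.1 (Θ z) 1 * z.2 1) =ᶠ[𝓝 (x, y)]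
        fun _ => (0 : ℝ) := by
      filter_upwards [hΘt] with z hz
      exact hz.1
    have h1 : HasFDerivAt (fun z : E2 × E2 => q z.1 (Θ z) 0 * z.2 0 + q z.1 (Θ z) 1 * z.2 1)
        (0 : E2 × E2 →L[ℝ] ℝ) (x, y) := (hasFDerivAt_const (0 : ℝ) (x, y)).congr_of_eventuallyEq hz
    have h2 := hdQ.unique h1
    have h3 := congrArg (fun L : E2 × E2 →L[ℝ] ℝ => L v) h2
    simp only [add_apply, smul_apply,
      ContinuousLinearMap.comp_apply, ContinuousLinearMap.proj_apply,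
      ContinuousLinearMap.coe_snd', smul_eq_mul, hLQv, hΘ0, zero_apply] at h3
    unfold dot at h3 hq0 ⊢
    simp only [Matrix.cons_val_zero, Matrix.cons_val_one] at h3 ⊢
    have s01 := G.syB x hx θ 0 1
    rw [s01] at h3 ⊢
    linear_combination (-1 : ℝ) * h3 - (m1 x θ * LΘ v) * hq0
  refine ⟨_, LP, hdF, hLP, ?_, ?_⟩
  · intro v
    simp only [add_apply, smul_apply,
      ContinuousLinearMap.comp_apply, ContinuousLinearMap.proj_apply,
      ContinuousLinearMap.coe_snd', smul_eq_mul, hLPv, hΘ0]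
    unfold dot at hq0 ⊢
    simp only [Matrix.cons_val_zero, Matrix.cons_val_one]
    have s01 := G.syA x hx θ 0 1
    rw [s01]
    linear_combination (LΘ v) * hq0
  · intro i v
    rw [hLPv, mul_add, ← mul_assoc, hcon]

theorem dY (hL : S_LOC) (G : GDat U T p q A B m1 m2) {x y : E2} (hx : x ∈ U) (hy : y ≠ 0)
    {θ : ℝ} (h : isT p q x y θ) (i : Fin 2) :
    fderiv ℝ (fun u => FF p q x u ^ 2) y (Pi.single i (1 : ℝ) : Fin 2 → ℝ) =
        2 * dot (p x θ) y * p x θ i := by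
  obtain ⟨Θ, hΘ, hΘ0, hΘt, hFF, LF, LP, hLF, hLP, hLFv, hLPv⟩ := first hL G hx hy h
  have hr : HasFDerivAt (fun u : E2 => ((x, u) : E2 × E2)) (ContinuousLinearMap.inr ℝ E2 E2) y :=
    hasFDerivAt_prodMk_right x y
  have hc : Tendsto (fun u : E2 => ((x, u) : E2 × E2)) (𝓝 y) (𝓝 (x, y)) := hr.continuousAt
  have h1 := HasFDerivAt.comp y (g := fun z : E2 × E2 => dot (p z.1 (Θ z)) z.2) hLF hr
  have h2 : HasFDerivAt (fun u => FF p q x u) (LF.comp (ContinuousLinearMap.inr ℝ E2 E2)) y :=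
    h1.congr_of_eventuallyEq (hc.eventually hFF)
  have h3 := h2.pow 2
  rw [h3.fderiv, FF_eq G hx hy h]
  simp only [smul_apply, ContinuousLinearMap.comp_apply,
    ContinuousLinearMap.inr_apply, smul_eq_mul]
  have hv : LF ((0 : E2), (Pi.single i (1 : ℝ) : E2)) = p x θ i := by
    rw [hLFv]
    fin_cases i <;> simp [dot]
  rw [hv]
  simp

theorem dX (hL : S_LOC) (G : GDat U T p q A B m1 m2) {x y : E2} (hx : x ∈ U) (hy : y ≠ 0)
    {θ : ℝ} (h : isT p q x y θ) (k : Fin 2) :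
    fderiv ℝ (fun z => FF p q z y ^ 2) x (Pi.single k (1 : ℝ) : Fin 2 → ℝ) =
        2 * dot (p x θ) y * dot (A x θ k) y := by
  obtain ⟨Θ, hΘ, hΘ0, hΘt, hFF, LF, LP, hLF, hLP, hLFv, hLPv⟩ := first hL G hx hy h
  have hr : HasFDerivAt (fun u : E2 => ((u, y) : E2 × E2)) (ContinuousLinearMap.inl ℝ E2 E2) x :=
    hasFDerivAt_prodMk_left x y
  have hc : Tendsto (fun u : E2 => ((u, y) : E2 × E2)) (𝓝 x) (𝓝 (x, y)) := hr.continuousAt
  have h1 := HasFDerivAt.comp x (g := fun z : E2 × E2 => dot (p z.1 (Θ z)) z.2) hLF hr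
  have h2 : HasFDerivAt (fun u => FF p q u y) (LF.comp (ContinuousLinearMap.inl ℝ E2 E2)) x :=
    h1.congr_of_eventuallyEq (hc.eventually hFF)
  have h3 := h2.pow 2
  rw [h3.fderiv, FF_eq G hx hy h]
  simp only [smul_apply, ContinuousLinearMap.comp_apply,
    ContinuousLinearMap.inl_apply, smul_eq_mul]
  have hv : LF ((Pi.single k (1 : ℝ) : E2), (0 : E2)) = dot (A x θ k) y := by
    rw [hLFv]
    fin_cases k <;> simp [dot]
  rw [hv]
  simp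

theorem dYY (hL : S_LOC) (G : GDat U T p q A B m1 m2) {x y : E2} (hx : x ∈ U) (hy : y ≠ 0)
    {θ : ℝ} (h : isT p q x y θ) (i j : Fin 2) :
    fderiv ℝ (fun w => fderiv ℝ (fun u => FF p q x u ^ 2) w
              (Pi.single j (1 : ℝ) : Fin 2 → ℝ)) y (Pi.single i (1 : ℝ) : Fin 2 → ℝ) =
        2 * (p x θ i * p x θ j + q x θ i * q x θ j) := by
  obtain ⟨Θ, hΘ, hΘ0, hΘt, hFF, LF, LP, hLF, hLP, hLFv, hLPv⟩ := first hL G hx hy h
  have hr : HasFDerivAt (fun u : E2 => ((x, u) : E2 × E2)) (ContinuousLinearMap.inr ℝ E2 E2) y :=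
    hasFDerivAt_prodMk_right x y
  have hc : Tendsto (fun u : E2 => ((x, u) : E2 × E2)) (𝓝 y) (𝓝 (x, y)) := hr.continuousAt
  have h1 := HasFDerivAt.comp y (g := fun z : E2 × E2 => dot (p z.1 (Θ z)) z.2) hLF hr
  have h2 := HasFDerivAt.comp y (g := fun z : E2 × E2 => p z.1 (Θ z) j) (hLP j) hr
  have h3 := (h1.mul h2).const_mul 2
  have heq : (fun w => fderiv ℝ (fun u => FF p q x u ^ 2) w (Pi.single j (1 : ℝ) : Fin 2 → ℝ))
      =ᶠ[𝓝 y] fun w => 2 * (((fun z : E2 × E2 => dot (p z.1 (Θ z)) z.2) ∘ fun u => (x, u)) w *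
        ((fun z : E2 × E2 => p z.1 (Θ z) j) ∘ fun u => (x, u)) w) := by
    filter_upwards [hc.eventually hΘt, hc.eventually (ev_ne hy)] with w hw1 hw2
    rw [dY hL G hx hw2 hw1 j]
    simp only [Function.comp]
    ring
  have h4 := h3.congr_of_eventuallyEq heq
  rw [h4.fderiv]
  simp only [smul_apply, add_apply,
    ContinuousLinearMap.comp_apply, ContinuousLinearMap.inr_apply, smul_eq_mul,
    Function.comp, hΘ0]
  have h5 : dot (p x θ) y * LP j ((0 : E2), (Pi.single i (1 : ℝ) : E2)) =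
      q x θ i * q x θ j := by
    rw [hLPv]
    fin_cases i <;> simp [dot]
  have hv : LF ((0 : E2), (Pi.single i (1 : ℝ) : E2)) = p x θ i := by
    rw [hLFv]
    fin_cases i <;> simp [dot]
  rw [h5, hv]
  ring

theorem dXY (hL : S_LOC) (G : GDat U T p q A B m1 m2) {x y : E2} (hx : x ∈ U) (hy : y ≠ 0)
    {θ : ℝ} (h : isT p q x y θ) (l k : Fin 2) :
    fderiv ℝ (fun z => fderiv ℝ (fun u => FF p q z u ^ 2) y
                (Pi.single l (1 : ℝ) : Fin 2 → ℝ)) x (Pi.single k (1 : ℝ) : Fin 2 → ℝ) =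
        2 * (dot (A x θ k) y * p x θ l + dot (p x θ) y * A x θ l k +
          q x θ l * dot (B x θ k) y) := by
  obtain ⟨Θ, hΘ, hΘ0, hΘt, hFF, LF, LP, hLF, hLP, hLFv, hLPv⟩ := first hL G hx hy h
  have hr : HasFDerivAt (fun u : E2 => ((u, y) : E2 × E2)) (ContinuousLinearMap.inl ℝ E2 E2) x :=
    hasFDerivAt_prodMk_left x y
  have hc : Tendsto (fun u : E2 => ((u, y) : E2 × E2)) (𝓝 x) (𝓝 (x, y)) := hr.continuousAt
  have h1 := HasFDerivAt.comp x (g := fun z : E2 × E2 => dot (p z.1 (Θ z)) z.2) hLF hr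
  have h2 := HasFDerivAt.comp x (g := fun z : E2 × E2 => p z.1 (Θ z) l) (hLP l) hr
  have h3 := (h1.mul h2).const_mul 2
  have heq : (fun z => fderiv ℝ (fun u => FF p q z u ^ 2) y (Pi.single l (1 : ℝ) : Fin 2 → ℝ))
      =ᶠ[𝓝 x] fun w => 2 * (((fun z : E2 × E2 => dot (p z.1 (Θ z)) z.2) ∘ fun u => (u, y)) w *
        ((fun z : E2 × E2 => p z.1 (Θ z) l) ∘ fun u => (u, y)) w) := by
    filter_upwards [hc.eventually hΘt, hc.eventually (ev_U (y := y) G.oU hx)] with w hw1 hw2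
    rw [dY hL G hw2 hy hw1 l]
    simp only [Function.comp]
    ring
  have h4 := h3.congr_of_eventuallyEq heq
  rw [h4.fderiv]
  simp only [smul_apply, add_apply,
    ContinuousLinearMap.comp_apply, ContinuousLinearMap.inl_apply, smul_eq_mul,
    Function.comp, hΘ0]
  have h5 : dot (p x θ) y * LP l ((Pi.single k (1 : ℝ) : E2), (0 : E2)) =
      dot (p x θ) y * A x θ l k + dot (B x θ k) y * q x θ l := by
    rw [hLPv]
    fin_cases k <;> simp [dot]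
  have hv : LF ((Pi.single k (1 : ℝ) : E2), (0 : E2)) = dot (A x θ k) y := by
    rw [hLFv]
    fin_cases k <;> simp [dot]
  rw [h5, hv]
  ring

end main

theorem th (hL : S_LOC) : S_GF := by
  intro U T p q A B m1 m2 G
  refine ⟨?_, fun x hx y hy θ h => ⟨FF_eq G hx hy h, GG_eq G hx hy h, dY hL G hx hy h,
    dX hL G hx hy h, dYY hL G hx hy h, dXY hL G hx hy h⟩⟩
  rintro ⟨x, y⟩ ⟨hx, hy⟩
  obtain ⟨θ, h1, h2⟩ := G.ex x hx y hy
  obtain ⟨Θ, hΘ, hΘ0, hΘt, hFF, -⟩ := first hL G hx hy ⟨h1, h2⟩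
  apply ContDiffAt.contDiffWithinAt
  have hp : ∀ i, ContDiffAt ℝ ∞ (fun z : E2 × E2 => p z.1 (Θ z) i) (x, y) := by
    intro i
    have h3 : ContDiffAt ℝ ∞ (fun z : E2 × ℝ => p z.1 z.2 i)
        ((fun z : E2 × E2 => (z.1, Θ z)) (x, y)) := by
      simp only [hΘ0]
      exact contDiffAt_pi.1 (sAt G.oU G.sp hx θ) i
    exact h3.comp (x, y) (contDiffAt_fst.prodMk hΘ)
  have hy' : ∀ i : Fin 2, ContDiffAt ℝ ∞ (fun z : E2 × E2 => z.2 i) (x, y) := fun i =>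
    contDiffAt_pi.1 contDiffAt_snd i
  have h4 := ((hp 0).mul (hy' 0)).add ((hp 1).mul (hy' 1))
  exact h4.congr_of_eventuallyEq hFF

end Pool.Agent.W230.UN.GF
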